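import Pool.Agent.U20.TT.Final

/-!
The set of acceptable formulas of truth-trees with parity (recursive rule included) is not
decidable.
-/

set_option autoImplicit false

namespace Pool.Agent.Results.MP_e8d052_lc.Undecidable

open Pool.Agent.R824.TT

/-- The Gödel number of a formula. -/
def code : Fml → ℕ
  | .var p => 5 * p
  | .neg φ => 5 * code φ + 1
  | .conj φ ψ => 5 * Nat.pair (code φ) (code ψ) + 2
  | .disj φ ψ => 5 * Nat.pair (code φ) (code ψ) + 3
  | .imp φ ψ => 5 * Nat.pair (code φ) (code ψ) + 4

theorem code_eq : ∀ φ : Fml, code φ = Pool.Agent.U20.TT.code φ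
  | .var _ => rfl
  | .neg φ => by rw [code, Pool.Agent.U20.TT.code, code_eq φ]
  | .conj φ ψ => by rw [code, Pool.Agent.U20.TT.code, code_eq φ, code_eq ψ]
  | .disj φ ψ => by rw [code, Pool.Agent.U20.TT.code, code_eq φ, code_eq ψ]
  | .imp φ ψ => by rw [code, Pool.Agent.U20.TT.code, code_eq φ, code_eq ψ]

/-- **The set `A` of acceptable formulas is not decidable.** Different formulas have different
Gödel numbers, and the set of the Gödel numbers of the acceptable formulas is not computable. -/
theorem result : Function.Injective code ∧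
    ¬ ComputablePred fun n : ℕ => ∃ φ : Fml, code φ = n ∧ φ ∈ Acceptable := by
  refine ⟨fun φ ψ h => Pool.Agent.U20.TT.code_inj φ ψ (by rw [← code_eq, ← code_eq, h]), ?_⟩
  simp only [code_eq]
  exact Pool.Agent.U20.TT.undecidable

end Pool.Agent.Results.MP_e8d052_lc.Undecidable
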